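import Pool.Agent.Lib.MP_eee7a8_ag.TB.Iface4

/-!
# TAGBR, group E, F: common lemmas (powers of hyperbolic elements, Laurent monomials)
-/

open Matrix

namespace Pool.Agent.Lib.MP_eee7a8_ag.TB.C62

/-! ## Powers of hyperbolic elements -/

theorem side_eq_dt (g : SLZ) (a : Cusp) : side g a = eps g a * dt a (g • a) := by
  have h1 := smul_x g a
  have h2 := smul_y g a
  unfold side dt
  rw [← h1, ← h2]; ring

theorem smul_ne_of_side {g : SLZ} {a : Cusp} (h : side g a ≠ 0) : g • a ≠ a := by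
  intro he
  apply h
  rw [side_eq_dt, he, dt_self, mul_zero]

theorem cayley (h : SLZ) : h.1 * h.1 = h.1.trace • h.1 - 1 := by
  have hd := det_eq h
  ext i j
  fin_cases i <;> fin_cases j <;>
    simp only [Matrix.mul_apply, Fin.sum_univ_two, Matrix.sub_apply, Matrix.smul_apply,
      Matrix.trace_fin_two, smul_eq_mul, Fin.zero_eta, Fin.mk_one, Matrix.one_apply_eq,
      Matrix.one_apply_ne zero_ne_one, Matrix.one_apply_ne one_ne_zero] <;>
    linarith

theorem trace_pow_rec (h : SLZ) (n : ℕ) :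
    (h ^ (n + 2)).1.trace = h.1.trace * (h ^ (n + 1)).1.trace - (h ^ n).1.trace := by
  have e1 : (h ^ (n + 2)).1 = h.1 ^ n * (h.1 * h.1) := by
    rw [Matrix.SpecialLinearGroup.coe_pow, pow_add, sq]
  have e2 : (h ^ (n + 1)).1 = h.1 ^ n * h.1 := by
    rw [Matrix.SpecialLinearGroup.coe_pow, pow_succ]
  have e3 : (h ^ n).1 = h.1 ^ n := Matrix.SpecialLinearGroup.coe_pow h n
  rw [e1, e2, e3, cayley, Matrix.mul_sub, Matrix.mul_smul, Matrix.mul_one, Matrix.trace_sub,
    Matrix.trace_smul, smul_eq_mul]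

theorem trace_pow_lt {h : SLZ} (ht : 2 < |h.1.trace|) (n : ℕ) :
    2 ≤ |(h ^ n).1.trace| ∧ |(h ^ n).1.trace| < |(h ^ (n + 1)).1.trace| := by
  induction n with
  | zero =>
    rw [pow_zero, zero_add, pow_one]
    have : (1 : SLZ).1.trace = 2 := by
      rw [Matrix.trace_fin_two]
      simp
    rw [this]
    refine ⟨by norm_num, ?_⟩
    rw [abs_of_pos (by norm_num : (0 : ℤ) < 2)]
    exact ht
  | succ n ih =>
    refine ⟨by omega, ?_⟩
    rw [show n + 1 + 1 = n + 2 from rfl, trace_pow_rec]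
    have h1 : |h.1.trace| * |(h ^ (n + 1)).1.trace| - |(h ^ n).1.trace| ≤
        |h.1.trace * (h ^ (n + 1)).1.trace - (h ^ n).1.trace| := by
      rw [← abs_mul]
      exact abs_sub_abs_le_abs_sub _ _
    generalize |(h ^ (n + 1)).1.trace| = A at *
    generalize |(h ^ n).1.trace| = B at *
    generalize |h.1.trace| = C at *
    have h2 : 3 * A ≤ C * A := mul_le_mul_of_nonneg_right (by omega) (by omega)
    omega

theorem hyp_pow {h : SLZ} (ht : 2 < |h.1.trace|) {n : ℕ} (hn : 1 ≤ n) :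
    2 < |(h ^ n).1.trace| := by
  obtain ⟨m, rfl⟩ : ∃ m, n = m + 1 := ⟨n - 1, by omega⟩
  have := trace_pow_lt ht m
  omega

/-- Hyperbolic elements fix no cusp. -/
theorem side_ne_zero' {h : SLZ} (ht : 2 < |h.1.trace|) (v : Cusp) : side h v ≠ 0 := by
  intro h0
  have hdet := det_eq h
  have htr : h.1.trace = h.1 0 0 + h.1 1 1 := Matrix.trace_fin_two _
  have h1 : (2 * h.1 1 0 * v.x + (h.1 1 1 - h.1 0 0) * v.y) ^ 2 =
      (h.1.trace ^ 2 - 4) * v.y ^ 2 := by
    unfold side at h0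
    rw [htr]
    linear_combination 4 * h.1 1 0 * h0 - 4 * v.y ^ 2 * hdet
  have ht2 : 9 ≤ h.1.trace ^ 2 := by
    have : (3 : ℤ) ≤ |h.1.trace| := by omega
    calc (9 : ℤ) = 3 * 3 := by norm_num
      _ ≤ |h.1.trace| * |h.1.trace| := mul_le_mul this this (by norm_num) (abs_nonneg _)
      _ = h.1.trace ^ 2 := by rw [abs_mul_abs_self]; ring
  by_cases hy : v.y = 0
  · have hx : v.x = 1 := by
      rcases v.nrm with h2 | h2
      · omega
      · exact h2.2
    rw [hy, hx] at h1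
    have hr : h.1 1 0 = 0 := by
      have : (2 * h.1 1 0) ^ 2 = 0 := by nlinarith
      have h3 : 2 * h.1 1 0 = 0 := by simpa using this
      omega
    rw [hr] at hdet
    have h5 : h.1 0 0 * h.1 1 1 = 1 := by linarith
    rcases Int.mul_eq_one_iff_eq_one_or_neg_one.1 h5 with ⟨h6, h7⟩ | ⟨h6, h7⟩ <;>
    · rw [htr, h6, h7] at ht; norm_num at ht
  · have hdvd : v.y ∣ 2 * h.1 1 0 * v.x + (h.1 1 1 - h.1 0 0) * v.y := by
      rw [← Int.pow_dvd_pow_iff (n := 2) (by norm_num), h1]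
      exact Dvd.intro_left _ rfl
    obtain ⟨m, hm⟩ := hdvd
    rw [hm] at h1
    have hy2 : v.y ^ 2 ≠ 0 := pow_ne_zero 2 hy
    have h2 : m ^ 2 = h.1.trace ^ 2 - 4 := by
      apply mul_left_cancel₀ hy2
      linear_combination h1
    have h3 : |m| ^ 2 = |h.1.trace| ^ 2 - 4 := by rw [sq_abs, sq_abs]; exact h2
    have h4 : 0 ≤ |m| := abs_nonneg m
    have h5 : (3 : ℤ) ≤ |h.1.trace| := by omega
    generalize |m| = a at *
    generalize |h.1.trace| = t at *
    have h6 : a < t := by nlinarith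
    have h7 : a ≤ t - 1 := by omega
    nlinarith

theorem smul_ne {h : SLZ} (ht : 2 < |h.1.trace|) (v : Cusp) : h • v ≠ v :=
  smul_ne_of_side (side_ne_zero' ht v)

/-! ## Laurent monomials -/

variable {G : Subgroup SLZ} {K : Type} [Field K] [Algebra ℂ K] (L : Lam G K)

/-- the trace of a power is not zero -/
theorem tr_ne (hNZ : NonzeroStatement) (hG : IsSurface G) {h : SLZ} (ht : 2 < |h.1.trace|) :
    L.tr h ≠ 0 := by
  unfold Lam.tr
  apply div_ne_zero
  · apply hNZ G K L hG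
    have h2 : 2 < |(h ^ 2).1.trace| := hyp_pow ht (by norm_num)
    have := smul_ne h2 infty
    rw [sq] at this
    exact this.symm
  · apply hNZ G K L hG
    exact (smul_ne ht infty).symm

theorem tk_ne (hNZ : NonzeroStatement) (hT : TraceStatement) (hG : IsSurface G) {h : SLZ}
    (hh : h ∈ G) (ht : 2 < |h.1.trace|) {k : ℕ} (hk : 1 ≤ k) : tk (L.tr h) k ≠ 0 := by
  rw [← (hT G K L hG h hh ht).2.2.1 k hk]
  exact tr_ne L hNZ hG (hyp_pow ht hk)

section mon

variable {ι : Type} [Fintype ι] (T : Fam ι)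

theorem mon_zero : L.mon T 0 = 1 := by
  unfold Lam.mon
  simp

theorem mon_add (hne : ∀ i, L.lam (T.s i) (T.t i) ≠ 0) (m m' : ι → ℤ) :
    L.mon T (m + m') = L.mon T m * L.mon T m' := by
  unfold Lam.mon
  rw [← Finset.prod_mul_distrib]
  apply Finset.prod_congr rfl
  intro i _
  rw [Pi.add_apply, zpow_add₀ (hne i)]

theorem ev_single (m : ι → ℤ) (c : ℂ) :
    L.ev T (.single m c) = algebraMap ℂ K c * L.mon T m := by
  unfold Lam.ev
  rw [AddMonoidAlgebra.coeff_single, Finsupp.sum_single_index]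
  rw [map_zero, zero_mul]

theorem ev_zero : L.ev T 0 = 0 := by
  unfold Lam.ev
  rw [AddMonoidAlgebra.coeff_zero, Finsupp.sum_zero_index]

theorem ev_add (p q : AddMonoidAlgebra ℂ (ι → ℤ)) : L.ev T (p + q) = L.ev T p + L.ev T q := by
  unfold Lam.ev
  rw [AddMonoidAlgebra.coeff_add]
  apply Finsupp.sum_add_index'
  · intro m; rw [map_zero, zero_mul]
  · intro m a b; rw [map_add, add_mul]

theorem ev_sum {α : Type*} (s : Finset α) (f : α → AddMonoidAlgebra ℂ (ι → ℤ)) :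
    L.ev T (∑ a ∈ s, f a) = ∑ a ∈ s, L.ev T (f a) := by
  classical
  induction s using Finset.induction_on with
  | empty => simp [ev_zero]
  | insert a s ha ih => rw [Finset.sum_insert ha, Finset.sum_insert ha, ev_add, ih]

/-- change of coefficients -/
noncomputable def toC (p : LP ι) : AddMonoidAlgebra ℂ (ι → ℤ) :=
  .ofCoeff (p.coeff.mapRange (fun n : ℕ => (n : ℂ)) Nat.cast_zero)

omit [Fintype ι] in
theorem toC_coeff (p : LP ι) (m : ι → ℤ) : (toC p).coeff m = (p.coeff m : ℂ) := by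
  unfold toC
  rw [AddMonoidAlgebra.coeff_ofCoeff, Finsupp.mapRange_apply]

theorem ev_toC (p : LP ι) : L.ev T (toC p) = L.evN T p := by
  unfold Lam.ev Lam.evN toC
  rw [AddMonoidAlgebra.coeff_ofCoeff, Finsupp.sum_mapRange_index]
  · apply Finsupp.sum_congr
    intro m _
    rw [map_natCast]
  · intro m; rw [map_zero, zero_mul]

omit [Fintype ι] in
theorem mem_supp_toC (p : LP ι) (m : ι → ℤ) :
    m ∈ (toC p).coeff.support ↔ m ∈ p.coeff.support := by
  rw [Finsupp.mem_support_iff, Finsupp.mem_support_iff, toC_coeff, Nat.cast_ne_zero]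

/-- exponents of a product -/
theorem mem_supp_mul {R : Type} [Semiring R] {ι : Type} (p q : AddMonoidAlgebra R (ι → ℤ))
    (m : ι → ℤ) (hm : m ∈ (p * q).coeff.support) :
    ∃ m₁ ∈ p.coeff.support, ∃ m₂ ∈ q.coeff.support, m = m₁ + m₂ := by
  classical
  rw [Finsupp.mem_support_iff, AddMonoidAlgebra.coeff_mul] at hm
  obtain ⟨m₁, h1, h2⟩ := Finset.exists_ne_zero_of_sum_ne_zero hm
  obtain ⟨m₂, h3, h4⟩ := Finset.exists_ne_zero_of_sum_ne_zero h2
  refine ⟨m₁, h1, m₂, h3, ?_⟩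
  by_contra hne
  exact h4 (if_neg (fun h => hne h.symm))

end mon

/-! ## Arcs -/

theorem sameArc_symm {a b c d : Cusp} (h : SameArc G a b c d) : SameArc G c d a b := by
  obtain ⟨g, hg, ⟨h1, h2⟩ | ⟨h1, h2⟩⟩ := h
  · exact ⟨g⁻¹, G.inv_mem hg, Or.inl ⟨by rw [← h1, inv_smul_smul], by rw [← h2, inv_smul_smul]⟩⟩
  · exact ⟨g⁻¹, G.inv_mem hg, Or.inr ⟨by rw [← h2, inv_smul_smul], by rw [← h1, inv_smul_smul]⟩⟩

theorem sameArc_trans {a b c d e f : Cusp} (h : SameArc G a b c d) (h' : SameArc G c d e f) :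
    SameArc G a b e f := by
  obtain ⟨g, hg, h⟩ := h
  obtain ⟨g', hg', h'⟩ := h'
  refine ⟨g' * g, G.mul_mem hg' hg, ?_⟩
  rcases h with ⟨h8, h9⟩ | ⟨h8, h9⟩ <;> rcases h' with ⟨h10, h11⟩ | ⟨h10, h11⟩
  · exact Or.inl ⟨by rw [mul_smul, h8, h10], by rw [mul_smul, h9, h11]⟩
  · exact Or.inr ⟨by rw [mul_smul, h8, h10], by rw [mul_smul, h9, h11]⟩
  · exact Or.inr ⟨by rw [mul_smul, h8, h11], by rw [mul_smul, h9, h10]⟩
  · exact Or.inl ⟨by rw [mul_smul, h8, h11], by rw [mul_smul, h9, h10]⟩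

theorem sameArc_refl (a b : Cusp) : SameArc G a b a b :=
  ⟨1, G.one_mem, Or.inl ⟨one_smul _ _, one_smul _ _⟩⟩

end Pool.Agent.Lib.MP_eee7a8_ag.TB.C62
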