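import Pool.Agent.Lib.MP_eee7a8_ag.TB.C62.Common

/-!
# INZ: functions of bracelets and systems do not vanish
-/

namespace Pool.Agent.Lib.MP_eee7a8_ag.TB.C62

theorem inz (hNZ : NonzeroStatement) (hV : VinvStatement) (hT : TraceStatement) :
    InzStatement := by
  intro G K _ _ L hG
  have hv : ∀ a, L.v a ≠ 0 := (hV G K L hG).2
  constructor
  · intro β
    unfold Lam.I
    apply mul_ne_zero
    · apply Multiset.prod_ne_zero
      intro h0
      rw [Multiset.mem_map] at h0
      obtain ⟨τ, hτ, h1⟩ := h0
      unfold Lam.arc at h1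
      have h2 := hNZ G K L hG τ.a τ.b (β.arc τ hτ).ne
      have h3 : ∀ (b : Bool) (a : Cusp), (if b then L.v a else 1) ≠ 0 := by
        intro b a
        split_ifs
        · exact hv a
        · exact one_ne_zero
      exact mul_ne_zero (mul_ne_zero (h3 _ _) (h3 _ _)) h2 h1
    · apply List.prod_ne_zero
      intro h0
      rw [List.mem_map] at h0
      obtain ⟨l, hl, h1⟩ := h0
      have h2 := β.loop l hl
      exact tk_ne L hNZ hT hG h2.1.mem h2.1.hyp h2.2 h1
  · intro β
    unfold Lam.IS
    apply mul_ne_zero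
    · apply List.prod_ne_zero
      intro h0
      rw [List.mem_map] at h0
      obtain ⟨p, hp, h1⟩ := h0
      exact hNZ G K L hG p.1 p.2 (β.ne p hp) h1
    · apply List.prod_ne_zero
      intro h0
      rw [List.mem_map] at h0
      obtain ⟨l, hl, h1⟩ := h0
      have h2 := β.loop l hl
      exact tk_ne L hNZ hT hG h2.1.mem h2.1.hyp h2.2 h1

end Pool.Agent.Lib.MP_eee7a8_ag.TB.C62
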