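import Pool.Agent.Lib.MP_eee7a8_ag.TB.C62.Common

/-!
# PLPOS: positivity in plain charts
-/

namespace Pool.Agent.Lib.MP_eee7a8_ag.TB.C62

theorem evN_pos (hR : PosrStatement) {G : Subgroup SLZ} {K : Type} [Field K] [Algebra ℂ K]
    (L : Lam G K) {ι : Type} [Fintype ι] (T : Fam ι) (p : LP ι) :
    L.evN T p ∈ PosSpan (Set.range (L.mon T)) := by
  classical
  obtain ⟨h1, h2, h3, _, h5, _⟩ := hR K (Set.range (L.mon T))
  have key : ∀ (s : Finset (ι → ℤ)), ∑ m ∈ s, ((p.coeff m : K) * L.mon T m) ∈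
      PosSpan (Set.range (L.mon T)) := by
    intro s
    induction s using Finset.induction_on with
    | empty => rw [Finset.sum_empty]; exact h5
    | insert a s ha ih =>
      rw [Finset.sum_insert ha]
      refine h2 _ ?_ _ ih
      have h6 := h3 (L.mon T a) (h1 ⟨a, rfl⟩) (p.coeff a : ℝ) (by positivity)
      have e : algebraMap ℂ K (((p.coeff a : ℝ)) : ℂ) = (p.coeff a : K) := by
        rw [Complex.ofReal_natCast, map_natCast]
      rw [e] at h6
      exact h6
  exact key p.coeff.support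

theorem plpos (hR : PosrStatement) (hP : PolStatement) (hV : VposStatement)
    (hTP : TrPolStatement) (hT : TraceStatement) : PlposStatement := by
  intro G K _ _ L hG n T hTri
  obtain ⟨P, hPol, hev⟩ := hP G K L hG (Fin n) T hTri
  refine ⟨?_, ?_, ?_⟩
  · intro a b
    rw [← hev]
    exact evN_pos hR L T _
  · intro a
    obtain ⟨p, hp⟩ := hV G K L hG (Fin n) T hTri a
    rw [← hp]
    exact evN_pos hR L T _
  · intro h hh ht k hk
    obtain ⟨_, p, _, hp⟩ := hTP G K L hG (Fin n) T hTri P hPol hev h hh ht k hk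
    rw [← (hT G K L hG h hh ht).2.2.1 k hk, ← hp]
    exact evN_pos hR L T _

end Pool.Agent.Lib.MP_eee7a8_ag.TB.C62
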