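import Pool.Agent.Lib.MP_eee7a8_ag.TB.C62.Common

/-!
# POSC: elements of `U` in plain charts
-/

namespace Pool.Agent.Lib.MP_eee7a8_ag.TB.C62

theorem posSpan_le {K : Type} [Field K] [Algebra ℂ K] (S : Set K) :
    PosSpan S ⊆ Submodule.span ℂ S := by
  rintro z ⟨s, c, hs, _, rfl⟩
  apply Submodule.sum_mem
  intro y hy
  rw [← Algebra.smul_def]
  exact Submodule.smul_mem _ _ (Submodule.subset_span (hs hy))

theorem posc (hTp : TplainStatement) (hC : ChartStatement) : PoscStatement := by
  intro G K _ _ L hG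
  have hsub : L.Upos ⊆ L.U := fun x hx T hT => posSpan_le _ (hx T hT)
  refine ⟨?_, hsub, ?_⟩
  · intro x hx n T hTri
    obtain ⟨Tt, h1, h2⟩ := hTp G hG n T hTri
    have h3 := hx Tt h1
    rw [h2 K L, Finsupp.mem_span_range_iff_exists_finsupp] at h3
    obtain ⟨c, hc⟩ := h3
    refine ⟨.ofCoeff c, ?_⟩
    rw [← hc]
    unfold Lam.ev
    rw [AddMonoidAlgebra.coeff_ofCoeff]
    apply Finsupp.sum_congr
    intro m _
    rw [Algebra.smul_def]
  · intro x hx n T hTri p hp m
    classical
    obtain ⟨Tt, h1, h2⟩ := hTp G hG n T hTri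
    have h3 := hx Tt h1
    rw [h2 K L] at h3
    obtain ⟨s, c, hs, hc, hsum⟩ := h3
    choose! e he using fun y (hy : y ∈ s) => hs hy
    have hq : L.ev T (∑ y ∈ s, .single (e y) ((c y : ℝ) : ℂ)) = x := by
      rw [ev_sum, hsum]
      apply Finset.sum_congr rfl
      intro y hy
      rw [ev_single, he y hy]
    have hpq := (hC G K L hG (Fin n) T hTri).inj (hp.trans hq.symm)
    refine ⟨∑ y ∈ s, if e y = m then c y else 0, ?_, ?_⟩
    · apply Finset.sum_nonneg
      intro y hy
      split_ifs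
      · exact hc y hy
      · exact le_refl _
    · rw [hpq, AddMonoidAlgebra.coeff_sum, Finsupp.finsetSum_apply, Complex.ofReal_sum]
      apply Finset.sum_congr rfl
      intro y _
      rw [AddMonoidAlgebra.coeff_single, Finsupp.single_apply]
      split_ifs
      · rfl
      · rw [Complex.ofReal_zero]

end Pool.Agent.Lib.MP_eee7a8_ag.TB.C62
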