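import Pool.Agent.Lib.MP_eee7a8_ag.TB.C62.Common

/-!
# POSIT: functions of bracelets are in `U⁺`
-/

namespace Pool.Agent.Lib.MP_eee7a8_ag.TB.C62

theorem posit (hTt : TtriStatement) (hCh : TagchStatement) (hF : TagfStatement)
    (hU : TaguStatement) (hPl : PlposStatement) (hR : PosrStatement) (hNZ : NonzeroStatement) :
    PositStatement := by
  intro G K _ _ L hG β Tt hT
  obtain ⟨ε, hε, n, T, hTri, _, _, _, hmon⟩ := hTt G hG Tt hT
  obtain ⟨L', hL'⟩ := hCh G K L hG ε hε
  have hL : IsTw L' L ε := (hF G K L L' hG ε hε hL').1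
  obtain ⟨_, _, _, hB⟩ := hU G K L' L hG ε hε hL
  obtain ⟨β', hβ'⟩ := hB β
  rw [hmon K L L' hL', hβ']
  obtain ⟨h1, h2, h3, h4, h5, _⟩ := hR K (Set.range (L'.mon T))
  have hne : ∀ i, L'.lam (T.s i) (T.t i) ≠ 0 := fun i => hNZ G K L' hG _ _ (hTri.ne i)
  have hmul : ∀ x ∈ PosSpan (Set.range (L'.mon T)), ∀ y ∈ PosSpan (Set.range (L'.mon T)),
      x * y ∈ PosSpan (Set.range (L'.mon T)) := by
    apply h4
    rintro _ ⟨m, rfl⟩ _ ⟨m', rfl⟩
    exact ⟨m + m', mon_add L' T hne m m'⟩
  have hone : (1 : K) ∈ PosSpan (Set.range (L'.mon T)) := h1 ⟨0, mon_zero L' T⟩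
  obtain ⟨p1, p2, p3⟩ := hPl G K L' hG n T hTri
  unfold Lam.I
  apply hmul
  · have key : ∀ s : Multiset TArc, (s.map L'.arc).prod ∈ PosSpan (Set.range (L'.mon T)) := by
      intro s
      induction s using Multiset.induction_on with
      | empty => rw [Multiset.map_zero, Multiset.prod_zero]; exact hone
      | cons τ s ih =>
        rw [Multiset.map_cons, Multiset.prod_cons]
        refine hmul _ ?_ _ ih
        unfold Lam.arc
        have h6 : ∀ (b : Bool) (a : Cusp), (if b then L'.v a else 1) ∈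
            PosSpan (Set.range (L'.mon T)) := by
          intro b a
          split_ifs
          · exact p2 a
          · exact hone
        exact hmul _ (hmul _ (h6 _ _) _ (h6 _ _)) _ (p1 _ _)
    exact key β'.arcs
  · have key : ∀ l : List (SLZ × ℕ), (∀ x ∈ l, IsLoop G x.1 ∧ 1 ≤ x.2) →
        (l.map (fun l => tk (L'.tr l.1) l.2)).prod ∈ PosSpan (Set.range (L'.mon T)) := by
      intro l hl
      induction l with
      | nil => rw [List.map_nil, List.prod_nil]; exact hone
      | cons x l ih =>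
        rw [List.map_cons, List.prod_cons]
        have h7 := hl x List.mem_cons_self
        refine hmul _ (p3 x.1 h7.1.mem h7.1.hyp x.2 h7.2) _
          (ih fun y hy => hl y (List.mem_cons_of_mem _ hy))
    exact key β'.loops β'.loop

end Pool.Agent.Lib.MP_eee7a8_ag.TB.C62
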