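import Pool.Agent.Lib.MP_eee7a8_ag.TB.C62.Common

/-!
# REPOL: elements of `R_e` are polynomials in `lam(e)` in good charts
-/

namespace Pool.Agent.Lib.MP_eee7a8_ag.TB.C62

theorem repol (hRB : RecbStatement) (hN : NcpStatement) (hP : PolStatement)
    (hTP : TrPolStatement) (hC : ChartStatement) : RepolStatement := by
  classical
  intro G K _ _ L hG e he ι _ T hT x hx
  obtain ⟨P, hPol, hev⟩ := hP G K L hG ι T hT.toIsTri
  have hCh := hC G K L hG ι T hT.toIsTri
  obtain ⟨_, hr2, _, _⟩ := hRB G hG e he ι T hT P hPol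
  unfold Lam.RR at hx
  induction hx using Algebra.adjoin_induction with
  | mem x hx =>
    rcases hx with ⟨a, b, h1, rfl⟩ | ⟨g, hg, ht, h1, rfl⟩
    · refine ⟨toC (P a b), ?_, ?_⟩
      · rw [ev_toC, hev]
      · intro m hm i hi
        rw [mem_supp_toC] at hm
        exact hr2 a b (fun c d hcd => h1 c d hcd) m hm i hi
    · obtain ⟨⟨a, b, hab, hs⟩, p, hp, hpe⟩ :=
        hTP G K L hG ι T hT.toIsTri P hPol hev g hg ht 1 (le_refl _)
      refine ⟨toC p, ?_, ?_⟩
      · rw [ev_toC, hpe, pow_one]
      · intro m hm i hi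
        rw [mem_supp_toC] at hm
        have h2 := hp a b hab hs
        rw [pow_one, pow_one] at h2
        have hNab : NC G e a b := by
          intro c d hcd
          exact hT.nocross a b c d hab (hT.mem c d hcd)
        obtain ⟨h3, h4⟩ := (hN G hG e he).1 g hg ht h1 a b hNab hs
        -- the exponent `m + del ab` occurs on the right hand side
        have hdel : T.del G a b i = 0 := by
          unfold Fam.del
          rw [dif_pos hab]
          by_contra hne
          have hi' : i = hab.choose := by
            by_contra hne2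
            exact hne (Pi.single_eq_of_ne hne2 1)
          have h5 := hab.choose_spec
          rw [← hi'] at h5
          have hGe : Ge G e a b := by
            obtain ⟨q, hq, h6⟩ := hi
            exact ⟨q, hq, sameArc_trans h6 h5⟩
          exact absurd hs (not_lt.2 (le_of_lt (h1 a b hGe)))
        have h5 : (p * AddMonoidAlgebra.single (T.del G a b) 1).coeff (m + T.del G a b) ≠ 0 := by
          rw [AddMonoidAlgebra.coeff_mul_single_add, mul_one]
          exact Finsupp.mem_support_iff.1 hm
        rw [h2, AddMonoidAlgebra.coeff_add, Finsupp.add_apply] at h5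
        have h6 : 0 ≤ (m + T.del G a b) i := by
          by_cases h7 : (P a (g • b)).coeff (m + T.del G a b) = 0
          · rw [h7, zero_add] at h5
            exact hr2 _ _ h4 _ (Finsupp.mem_support_iff.2 h5) i hi
          · exact hr2 _ _ h3 _ (Finsupp.mem_support_iff.2 h7) i hi
        rw [Pi.add_apply, hdel, add_zero] at h6
        exact h6
  | algebraMap c =>
    refine ⟨.single 0 c, ?_, ?_⟩
    · rw [ev_single, mon_zero, mul_one]
    · intro m hm i _
      rw [Finsupp.mem_support_iff, AddMonoidAlgebra.coeff_single, Finsupp.single_apply] at hm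
      split_ifs at hm with h
      · rw [← h]; exact le_refl _
      · exact absurd rfl hm
  | add x y _ _ hx hy =>
    obtain ⟨p, hp, hp'⟩ := hx
    obtain ⟨q, hq, hq'⟩ := hy
    refine ⟨p + q, by rw [ev_add, hp, hq], ?_⟩
    intro m hm i hi
    rw [Finsupp.mem_support_iff, AddMonoidAlgebra.coeff_add, Finsupp.add_apply] at hm
    by_cases h : p.coeff m = 0
    · rw [h, zero_add] at hm
      exact hq' m (Finsupp.mem_support_iff.2 hm) i hi
    · exact hp' m (Finsupp.mem_support_iff.2 h) i hi
  | mul x y _ _ hx hy =>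
    obtain ⟨p, hp, hp'⟩ := hx
    obtain ⟨q, hq, hq'⟩ := hy
    refine ⟨p * q, by rw [hCh.mul, hp, hq], ?_⟩
    intro m hm i hi
    obtain ⟨m₁, h1, m₂, h2, rfl⟩ := mem_supp_mul p q m hm
    rw [Pi.add_apply]
    exact add_nonneg (hp' m₁ h1 i hi) (hq' m₂ h2 i hi)

end Pool.Agent.Lib.MP_eee7a8_ag.TB.C62
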